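import Pool.Agent.Helper22.OrbitsTop

set_option autoImplicit false

namespace Pool.Agent.Results.MP_7a24ab_lc.AlephOneOrbits

open Set Pool.Agent.Helper22.Orbits

/-- the orbit of a subset `A` of `ℕ` under a permutation group `H` of `ℕ` -/
def orbitOf (H : Subgroup (Equiv.Perm ℕ)) (A : Set ℕ) : Set (Set ℕ) :=
  {B | ∃ h ∈ H, B = h '' A}

/-- the number of orbits of `H` on the power set of `ℕ` -/
noncomputable def numOrbits (H : Subgroup (Equiv.Perm ℕ)) : Cardinal.{0} :=
  Cardinal.mk ↥(Set.range (orbitOf H))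

/-- the group of permutations preserving all ranks -/
def G : Subgroup (Equiv.Perm ℕ) where
  carrier := {h | ∀ (S : Set ℕ) (β : Ordinal.{0}), R β (h '' S) ↔ R β S}
  mul_mem' := by
    intro g h hg hh S β
    rw [Equiv.Perm.coe_mul, Set.image_comp, hg, hh]
  one_mem' := by
    intro S β
    simp
  inv_mem' := by
    intro g hg S β
    rw [← hg, ← Set.image_comp]
    simp

theorem cyl_nonempty (z : ℕ → Bool) (n : ℕ) : (cyl z n).Nonempty := by
  refine ⟨Nat.ofBits (fun i : Fin n => z i), fun i hi => ?_⟩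
  rw [Nat.testBit_ofBits_lt _ _ hi]

/-- there are sets of every countable rank -/
theorem exact (α : Ordinal.{0}) (hα : α < Ordinal.omega 1) :
    ∀ (z : ℕ → Bool) (n : ℕ), ∃ A ⊆ cyl z n, R α A ∧ ¬ R (Order.succ α) A := by
  induction α using WellFoundedLT.induction with
  | ind α ih =>
    intro z n
    rcases (show (0 : Ordinal.{0}) ≤ α from zero_le).eq_or_lt with h | h
    · subst h
      obtain ⟨s, hs⟩ := cyl_nonempty z n
      refine ⟨{s}, Set.singleton_subset_iff.2 hs, (R_zero _).2 (Set.singleton_nonempty s), ?_⟩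
      rw [← one_eq_succ, R_one_iff, Set.not_infinite]
      exact Set.finite_singleton s
    · obtain ⟨b, hb1, hb2⟩ := exists_enum hα h
      have h1 : ∀ k, ∃ A ⊆ shell z (n + k), R (b k) A ∧ ¬ R (Order.succ (b k)) A := by
        intro k
        rw [shell_eq_cyl]
        exact ih (b k) (hb1 k) ((hb1 k).trans hα) _ _
      choose A hA1 hA2 hA3 using h1
      have hint : ∀ k, (⋃ j, A j) ∩ shell z (n + k) ⊆ A k := by
        rintro k s ⟨hs1, hs2⟩
        obtain ⟨j, hj⟩ := Set.mem_iUnion.1 hs1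
        by_cases hjk : j = k
        · exact hjk ▸ hj
        · exfalso
          exact Set.disjoint_left.1 (shell_disjoint (z := z) (m := n + j) (n := n + k) (by omega))
            (hA1 j hj) hs2
      have hk : ∀ k, ¬ R α (A k) := fun k h2 =>
        hA3 k (h2.anti (Order.succ_le_of_lt (hb1 k)))
      have hsub : (⋃ j, A j) ⊆ cyl z n := by
        intro s hs
        obtain ⟨j, hj⟩ := Set.mem_iUnion.1 hs
        exact cyl_anti (Nat.le_add_right n j) (shell_subset_cyl _ _ (hA1 j hj))
      refine ⟨⋃ j, A j, hsub, ?_, ?_⟩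
      · rw [R_iff_succ]
        refine ⟨(hA2 0).nonempty.mono (Set.subset_iUnion A 0), fun β hβ => ?_⟩
        apply R_succ_iff.2
        refine ⟨z, fun N => ?_⟩
        obtain ⟨k, hk1, hk2⟩ := hb2 β hβ N
        refine ⟨n + k, by omega, ?_⟩
        rw [← hk2]
        exact (hA2 k).mono (Set.subset_inter (Set.subset_iUnion A k) (hA1 k))
      · intro h2
        obtain ⟨z', hz'⟩ := R_succ_iff.1 h2
        by_cases hzz : z' = z
        · subst hzz
          obtain ⟨m, hm, hR⟩ := hz' n
          obtain ⟨k, rfl⟩ := Nat.exists_eq_add_of_le hm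
          exact hk k (hR.mono (hint k))
        · obtain ⟨j, hj1, hj2⟩ := first_diff hzz
          obtain ⟨m, hm, hR⟩ := hz' (j + 1)
          have h3 : shell z' m ⊆ shell z j :=
            (shell_subset_cyl _ _).trans (cyl_subset_shell hj1 hj2 hm)
          rcases Nat.lt_or_ge j n with h4 | h4
          · obtain ⟨s, hs1, hs2⟩ := hR.nonempty
            exact Set.disjoint_left.1 (cyl_disjoint_shell h4) (hsub hs1) (h3 hs2)
          · obtain ⟨k, rfl⟩ := Nat.exists_eq_add_of_le h4
            exact hk k (hR.mono ((Set.inter_subset_inter_right _ h3).trans (hint k)))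

theorem finite_pres {A B : Set ℕ} (hA : A.Finite) (h : A.encard = B.encard) :
    ∃ f : ℕ → ℕ, Set.BijOn f A B ∧ Pres f A := by
  obtain ⟨f, hf⟩ := hA.exists_bijOn_of_encard_eq h
  refine ⟨f, hf, ?_⟩
  intro S hS β
  have hSf : S.Finite := hA.subset hS
  rcases (show (0 : Ordinal.{0}) ≤ β from zero_le).eq_or_lt with h | h
  · rw [← h, R_zero, R_zero, Set.image_nonempty]
  · have h1 : (1 : Ordinal.{0}) ≤ β := by
      rw [one_eq_succ]; exact Order.succ_le_of_lt h
    exact ⟨fun h2 => absurd h2 (not_R_finite h1 (hSf.image f)),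
      fun h2 => absurd h2 (not_R_finite h1 hSf)⟩

/-- the rank of a set, at most `ω₁` -/
noncomputable def rko (A : Set ℕ) : Ordinal.{0} := sInf {α | Ordinal.omega 1 ≤ α ∨ ¬ R α A}

theorem rko_le (A : Set ℕ) : rko A ≤ Ordinal.omega 1 := csInf_le' (Or.inl (le_refl _))

theorem lt_rko {A : Set ℕ} {α : Ordinal.{0}} (hα : α < Ordinal.omega 1) : R α A ↔ α < rko A := by
  constructor
  · intro h
    by_contra hcon
    push Not at hcon
    have h1 : rko A ∈ {α | Ordinal.omega 1 ≤ α ∨ ¬ R α A} :=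
      csInf_mem ⟨Ordinal.omega 1, Or.inl (le_refl _)⟩
    rcases h1 with h1 | h1
    · exact absurd (lt_of_le_of_lt hcon hα) (not_lt.2 h1)
    · exact h1 (h.anti hcon)
  · intro h
    by_contra hcon
    exact absurd h (not_lt.2 (csInf_le' (Or.inr hcon)))

theorem half {A B : Set ℕ} (h1 : A.encard = B.encard) (h2 : rko A = rko B) :
    ∃ f : ℕ → ℕ, Set.BijOn f A B ∧ Pres f A := by
  by_cases hA : A.Finite
  · exact finite_pres hA h1
  · have hA' : A.Infinite := hA
    have hB : B.Infinite := by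
      rw [← Set.encard_eq_top_iff, ← h1, Set.encard_eq_top_iff]
      exact hA'
    apply homog hA' hB
    intro α hα
    rw [lt_rko hα, lt_rko hα, h2]

theorem same_orbit {A B : Set ℕ} (h1 : A.encard = B.encard) (h2 : rko A = rko B)
    (h3 : Aᶜ.encard = Bᶜ.encard) (h4 : rko Aᶜ = rko Bᶜ) : ∃ h ∈ G, h '' A = B := by
  classical
  obtain ⟨f, hf1, hf2⟩ := half h1 h2
  obtain ⟨g, hg1, hg2⟩ := half h3 h4
  let k : ℕ → ℕ := fun a => if a ∈ A then f a else g a
  have hkf : ∀ a ∈ A, k a = f a := fun a ha => if_pos ha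
  have hkg : ∀ a ∈ Aᶜ, k a = g a := fun a ha => if_neg ha
  have hbij : Function.Bijective k := by
    constructor
    · intro a b hab
      by_cases ha : a ∈ A
      · by_cases hb : b ∈ A
        · rw [hkf a ha, hkf b hb] at hab
          exact hf1.injOn ha hb hab
        · exfalso
          rw [hkf a ha, hkg b hb] at hab
          exact hg1.mapsTo hb (hab ▸ hf1.mapsTo ha)
      · by_cases hb : b ∈ A
        · exfalso
          rw [hkg a ha, hkf b hb] at hab
          exact hg1.mapsTo ha (hab ▸ hf1.mapsTo hb)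
        · rw [hkg a ha, hkg b hb] at hab
          exact hg1.injOn ha hb hab
    · intro b
      by_cases hb : b ∈ B
      · obtain ⟨a, ha, h⟩ := hf1.surjOn hb
        exact ⟨a, by rw [hkf a ha]; exact h⟩
      · obtain ⟨a, ha, h⟩ := hg1.surjOn hb
        exact ⟨a, by rw [hkg a ha]; exact h⟩
  refine ⟨Equiv.ofBijective k hbij, ?_, ?_⟩
  · intro S β
    have h5 : Pres k (A ∪ Aᶜ) := pres_union (pres_congr hf2 hkf) (pres_congr hg2 hkg)
    rw [union_compl_self] at h5
    exact h5 S (subset_univ S) β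
  · change k '' A = B
    rw [Set.image_congr hkf]
    exact hf1.image_eq

theorem orbitOf_eq {A B : Set ℕ} (h : ∃ h ∈ G, h '' A = B) : orbitOf G A = orbitOf G B := by
  obtain ⟨g, hg, rfl⟩ := h
  ext X
  constructor
  · rintro ⟨h, hh, rfl⟩
    refine ⟨h * g⁻¹, G.mul_mem hh (G.inv_mem hg), ?_⟩
    rw [← Set.image_comp]
    congr 1
    ext x
    simp
  · rintro ⟨h, hh, rfl⟩
    refine ⟨h * g, G.mul_mem hh hg, ?_⟩
    rw [Equiv.Perm.coe_mul, Set.image_comp]

theorem upper : numOrbits G ≤ Cardinal.aleph 1 := by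
  classical
  have hch : ∀ O : ↥(Set.range (orbitOf G)), ∃ A, orbitOf G A = O := fun O => O.2
  choose A hA using hch
  let T := (ℕ∞ × Set.Iic (Ordinal.omega 1 : Ordinal.{0})) × (ℕ∞ × Set.Iic (Ordinal.omega 1 : Ordinal.{0}))
  let F : ↥(Set.range (orbitOf G)) → T := fun O =>
    (((A O).encard, ⟨rko (A O), rko_le _⟩), ((A O)ᶜ.encard, ⟨rko (A O)ᶜ, rko_le _⟩))
  have hF : Function.Injective F := by
    intro O O' h
    have e1 := congrArg (fun x : T => x.1.1) h
    have e2 := congrArg (fun x : T => (x.1.2 : Ordinal.{0})) h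
    have e3 := congrArg (fun x : T => x.2.1) h
    have e4 := congrArg (fun x : T => (x.2.2 : Ordinal.{0})) h
    apply Subtype.ext
    rw [← hA O, ← hA O']
    exact orbitOf_eq (same_orbit e1 e2 e3 e4)
  have hI : Cardinal.mk (Set.Iic (Ordinal.omega 1 : Ordinal.{0})) = Cardinal.aleph 1 := by
    rw [← Order.Iio_succ, Cardinal.mk_Iio_ordinal, Order.succ_eq_add_one, Ordinal.card_add,
      Ordinal.card_omega, Ordinal.card_one,
      Cardinal.add_one_eq (Cardinal.aleph0_le_aleph 1), Cardinal.lift_aleph, Ordinal.lift_one]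
  have hE : Cardinal.mk ℕ∞ = Cardinal.aleph0 := by
    exact Cardinal.mk_eq_aleph0 _
  have hT : Cardinal.mk T ≤ Cardinal.aleph 1 := by
    have h1 : Cardinal.mk (ℕ∞ × Set.Iic (Ordinal.omega 1 : Ordinal.{0})) ≤ Cardinal.aleph 1 := by
      rw [Cardinal.mk_prod, hI, hE, Cardinal.lift_aleph0, Cardinal.lift_uzero]
      exact (Cardinal.mul_le_max _ _).trans (max_le (max_le (Cardinal.aleph0_le_aleph 1) le_rfl)
        (Cardinal.aleph0_le_aleph 1))
    have h2 : Cardinal.mk T = Cardinal.mk (ℕ∞ × Set.Iic (Ordinal.omega 1 : Ordinal.{0})) *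
        Cardinal.mk (ℕ∞ × Set.Iic (Ordinal.omega 1 : Ordinal.{0})) := by
      rw [Cardinal.mk_prod, Cardinal.lift_id]
    rw [h2]
    exact (Cardinal.mul_le_max _ _).trans (max_le (max_le h1 h1) (Cardinal.aleph0_le_aleph 1))
  have h3 := Cardinal.lift_mk_le_lift_mk_of_injective hF
  have h4 : Cardinal.lift.{1, 0} (numOrbits G) ≤ Cardinal.lift.{1, 0} (Cardinal.aleph 1) := by
    rw [Cardinal.lift_aleph, Ordinal.lift_one]
    refine le_trans ?_ hT
    rw [Cardinal.lift_id'] at h3
    exact h3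
  exact Cardinal.lift_le.1 h4

theorem lower : Cardinal.aleph 1 ≤ numOrbits G := by
  have h : ∀ α : Set.Iio (Ordinal.omega 1 : Ordinal.{0}), ∃ A : Set ℕ, R α.1 A ∧
      ¬ R (Order.succ α.1) A := by
    rintro ⟨α, hα⟩
    obtain ⟨A, -, hA⟩ := exact α hα (fun _ => false) 0
    exact ⟨A, hA⟩
  choose A hA1 hA2 using h
  let F : Set.Iio (Ordinal.omega 1 : Ordinal.{0}) → ↥(Set.range (orbitOf G)) := fun α =>
    ⟨orbitOf G (A α), mem_range_self _⟩
  have hle : ∀ α β, F α = F β → α.1 ≤ β.1 := by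
    intro α β h
    have h1 : orbitOf G (A α) = orbitOf G (A β) := congrArg Subtype.val h
    have h2 : A β ∈ orbitOf G (A β) := ⟨1, G.one_mem, by simp⟩
    rw [← h1] at h2
    obtain ⟨g, hg, h3⟩ := h2
    by_contra hlt
    push Not at hlt
    apply hA2 β
    rw [h3]
    exact (hg (A α) _).2 ((hA1 α).anti (Order.succ_le_of_lt hlt))
  have hF : Function.Injective F := fun α β h =>
    Subtype.ext (le_antisymm (hle α β h) (hle β α h.symm))
  have h3 := Cardinal.lift_mk_le_lift_mk_of_injective hF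
  rw [Cardinal.mk_Iio_ordinal, Ordinal.card_omega, Cardinal.lift_lift, Cardinal.lift_le] at h3
  exact h3

/-- There is a permutation group on the countable set `ℕ` with exactly `ℵ₁` orbits on the power
set of `ℕ`; so if the continuum hypothesis fails, then its number of orbits lies strictly between
`ℵ₀` and `2 ^ ℵ₀`. -/
theorem result : ∃ H : Subgroup (Equiv.Perm ℕ), numOrbits H = Cardinal.aleph 1 ∧
    (Cardinal.continuum.{0} ≠ Cardinal.aleph 1 →
      Cardinal.aleph0 < numOrbits H ∧ numOrbits H < Cardinal.continuum) := by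
  have h : numOrbits G = Cardinal.aleph 1 := le_antisymm upper lower
  refine ⟨G, h, fun hCH => ?_⟩
  rw [h]
  exact ⟨Cardinal.aleph0_lt_aleph_one, lt_of_le_of_ne Cardinal.aleph_one_le_continuum hCH.symm⟩

end Pool.Agent.Results.MP_7a24ab_lc.AlephOneOrbits
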